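import Pool.Agent.R613.VF.Ex

/-!
# MP_65f174_lc, question Q1: the transfer principle fails for all fragments with three or more blocks

The standard fragments are `∃`, `∀∃`, `∃∀∃`, ... (`n` alternating blocks, the last one existential,
`n ≥ 1`). Q1 asks whether for every standard fragment `Φ` and all equicharacteristic henselian
nontrivially valued fields `(K, v, π_K)`, `(L, w, π_L)` with uniformizers, `L` of equal
characteristic zero and with a `ℤ`-group as value group, `Th_Φ(Kv) ⊆ Th_Φ(Lw)` implies
`Th_Φ(K, v, π_K) ⊆ Th_Φ(L, w, π_L)`.

The answer is no: for `K = k((s))((t))` with the henselian valuation of rank two and `L = k((t))`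
the residue fields are the same, but for each `n ≥ 3` there is a sentence with `n` blocks which is
true in `(K, v, s)` and false in `(L, w, t)`: some nonzero `x` has a value which is different
from `2 v(y)` and from `2 v(y) + v(ϖ)` for all `y`.

The language, the fragments and truth in a valued field are defined in `Pool/Agent/R613/VF/Lang.lean`.
-/

set_option autoImplicit false

namespace Pool.Agent.Results.MP_65f174_lc.FailsFromThreeBlocks

open Pool.Agent.R613.VF

/-- For every field `k` of characteristic zero there are henselian valued fields `(K, OK)`,
`(L, OL)` of equal characteristic zero with uniformizers `πK`, `πL` and with residue fields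
isomorphic to `k`, such that `OL` is a discrete valuation ring (so that the value group of `L` is
isomorphic to `ℤ`) and such that, for every `n ≥ 3`, some sentence of the three-sorted language of
valued fields with a constant `ϖ`, with `n` alternating blocks of quantifiers of which the last one
is existential, is true in `(K, OK, πK)` and false in `(L, OL, πL)`. -/
theorem result (k : Type) [Field k] [CharZero k] :
    ∃ (K L : Type) (_ : Field K) (_ : Field L) (OK : ValuationSubring K) (OL : ValuationSubring L)
      (πK : K) (πL : L),
      CharZero K ∧ CharZero L ∧ OK ≠ ⊤ ∧ OL ≠ ⊤ ∧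
      HenselianLocalRing OK ∧ HenselianLocalRing OL ∧
      IsUniformizer OK πK ∧ IsUniformizer OL πL ∧
      Nonempty (IsLocalRing.ResidueField OK ≃+* k) ∧
      Nonempty (IsLocalRing.ResidueField OL ≃+* k) ∧
      IsDiscreteValuationRing OL ∧
      ∀ n : ℕ, 3 ≤ n → ∃ φ : Sentence n, Models OK πK φ ∧ ¬ Models OL πL φ := by
  refine ⟨KK k, LaurentSeries k, inferInstance, inferInstance, OK k, PS k, sK k, tL k, ?_, ?_,
    ne_top_of_uniformizer _ _ (uniformizer_sK k), ne_top_of_uniformizer _ _ (uniformizer_tL k),
    henselian_OK k, henselian_PS k, uniformizer_sK k, uniformizer_tL k, residue_OK k,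
    residue_PS k, dvr_PS k, fun n hn => ?_⟩
  · exact charZero_of_injective_ringHom
      (f := (HahnSeries.C : LaurentSeries k →+* KK k).comp (HahnSeries.C : k →+* LaurentSeries k))
      (HahnSeries.C_injective.comp HahnSeries.C_injective)
  · exact charZero_of_injective_ringHom (f := (HahnSeries.C : k →+* LaurentSeries k))
      HahnSeries.C_injective
  · obtain ⟨φ, hφ⟩ := exists_sentence n hn
    exact ⟨φ, (hφ _ _ _).2 (meaning_K k), fun h => not_meaning_L k ((hφ _ _ _).1 h)⟩

end Pool.Agent.Results.MP_65f174_lc.FailsFromThreeBlocks
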